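import Mathlib
import Pool.Agent.Run7.h866.NU.Sym

set_option autoImplicit false

/-!
# `C ^ 2 ≥ 0` for curves with balanced multiplicities

Let `P 1, …, P s` be very general points of the complex projective plane, let `C` be the class
`d H - ∑ μ i E i` of a plane curve of degree `d` (irreducible or not) with multiplicities at least
`μ i` at the points and let `T` be a set of `t` points. Suppose that there are permutations `σ 1, …, σ r` of `T` which balance the
multiplicities: the sums `v i = μ (σ 1 i) + … + μ (σ r i)`, `i ∈ T`,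
* take only two values `m`, `m + 1` with `m ≥ 1`, and `t ≥ 200`, or
* are close to a constant `m ≥ (t + 6) / 2`, and `t ≥ 37`.

Then `C ^ 2 ≥ S / (2 r) - V`, where `S` is the sum of the multiplicities at `T` and `V` is the sum of
the squares of their deviations from the mean `S / t` plus the sum of the squares of the other
multiplicities. So `C ^ 2 < 0` is impossible if `2 r V ≤ S`. For instance `r = 2` suffices if as many
points of `T` have multiplicity `c + j` as `c - j`, for every `j`: then `C ^ 2 < 0` is impossible if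
`4 V ≤ t c`, where `V = ∑_T (μ i - c) ^ 2 + ∑_(i ∉ T) (μ i) ^ 2`.

Proof: the product of the equations of the `r` conjugates of `C` is a form of degree `r d` with
multiplicities `v i` at `T`, and systems with such multiplicities are non-special.
-/

namespace Pool.Agent.Results.MP_3c83d0_ag.BalancedMultiplicities

open MvPolynomial

/-- The homogeneous ideal of the point `(p 0 : p 1 : 1)`. -/
noncomputable def ptIdeal (p : Fin 2 → ℂ) : Ideal (MvPolynomial (Fin 3) ℂ) :=
  Ideal.span ({X 0 - C (p 0) * X 2, X 1 - C (p 1) * X 2} : Set (MvPolynomial (Fin 3) ℂ))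

/-- The self-intersection of the class `d H - ∑ μ i E i`. -/
noncomputable def selfInt {s : ℕ} (d : ℕ) (μ : Fin s → ℕ) : ℝ :=
  (d : ℝ) ^ 2 - ∑ i, (μ i : ℝ) ^ 2

/-- At least `200` points with values `m` or `m + 1`, `m ≥ 1`. -/
def TwoValues {s : ℕ} (T : Finset (Fin s)) (v : Fin s → ℕ) : Prop :=
  200 ≤ T.card ∧ ∃ m : ℕ, 1 ≤ m ∧ ∀ i ∈ T, v i = m ∨ v i = m + 1

/-- The cost of a value `e ≤ m + 1`. -/
def cost (m e : ℕ) : ℕ := if e < m then 4 * (m - e) - 2 else if e = m then 0 else 1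

/-- `0, 5, 2, 3` for `t ≡ 0, 1, 2, 3` modulo four. -/
def spare (t : ℕ) : ℕ := if t % 4 = 1 then 5 else t % 4

/-- At least `37` points with values close to a constant `m ≥ (t + 6) / 2`. -/
def CloseToConstant {s : ℕ} (T : Finset (Fin s)) (v : Fin s → ℕ) : Prop :=
  37 ≤ T.card ∧ ∃ m : ℕ, T.card + 6 ≤ 2 * m ∧ (∀ i ∈ T, v i ≤ m + 1) ∧
    (((∑ i ∈ T, cost m (v i) : ℕ) : ℝ) + (spare T.card : ℝ) / 2 + 9 / 8 <
        7 * Real.sqrt T.card / 6 ∨
      ((∑ i ∈ T, cost m (v i) : ℕ) : ℝ) + spare T.card + 2 * Real.sqrt T.card / 3 + 23 / 8 ≤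
        (T.card : ℝ) / 4)

/-- The permutations `σ 1, …, σ r` preserve `T` and balance the multiplicities on `T`. -/
def Balance {s r : ℕ} (T : Finset (Fin s)) (μ : Fin s → ℕ) (σ : Fin r → Equiv.Perm (Fin s)) :
    Prop :=
  (∀ j, ∀ i ∈ T, σ j i ∈ T) ∧
    (TwoValues T (fun i => ∑ j, μ (σ j i)) ∨ CloseToConstant T (fun i => ∑ j, μ (σ j i)))

/-- The sum of the multiplicities at `T`. -/
def sumOn {s : ℕ} (T : Finset (Fin s)) (μ : Fin s → ℕ) : ℕ := ∑ i ∈ T, μ i

/-- The sum of the squares of the deviations from the mean over `T`, and of the squares off `T`. -/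
noncomputable def spread {s : ℕ} (T : Finset (Fin s)) (μ : Fin s → ℕ) : ℝ :=
  ∑ i ∈ T, ((μ i : ℝ) - sumOn T μ / T.card) ^ 2 + ∑ i ∈ Tᶜ, (μ i : ℝ) ^ 2

theorem near_of {n : ℕ} {T : Finset (Fin n)} {v : Fin n → ℕ}
    (h : TwoValues T v ∨ CloseToConstant T v) : Pool.Agent.Run7.h866.NU.NearOn T v := by
  have ec : ∀ m e, cost m e = Pool.Agent.Run7.h866.NU.cst m e := fun _ _ => rfl
  have es : ∀ t, spare t = Pool.Agent.Run7.h866.NU.cc t := fun _ => rfl
  rcases h with ⟨h1, m, hm, h2⟩ | ⟨h1, m, hm, h2, h3⟩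
  · exact Or.inl ⟨h1, m, hm, h2⟩
  · simp only [ec, es] at h3
    exact Or.inr ⟨h1, m, hm, h2, h3⟩

theorem result (s : ℕ) :
    ∃ G : ℕ → MvPolynomial (Fin s × Fin 2) ℂ, (∀ j, G j ≠ 0) ∧
      ∀ P : Fin s → Fin 2 → ℂ,
        (∀ j, MvPolynomial.eval (fun ij : Fin s × Fin 2 => P ij.1 ij.2) (G j) ≠ 0) →
        ∀ (d : ℕ) (μ : Fin s → ℕ) (F : MvPolynomial (Fin 3) ℂ), F ≠ 0 →
          F.IsHomogeneous d → (∀ i, F ∈ ptIdeal (P i) ^ μ i) →
          ∀ (T : Finset (Fin s)) (r : ℕ) (σ : Fin r → Equiv.Perm (Fin s)), 1 ≤ r →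
            Balance T μ σ →
            (sumOn T μ : ℝ) / (2 * r) - spread T μ ≤ selfInt d μ ∧
              (2 * r * spread T μ ≤ sumOn T μ → 0 ≤ selfInt d μ) := by
  classical
  obtain ⟨G, hG, hG'⟩ := Pool.Agent.Run7.h866.NU.exists_familyC (Fin s × Fin 2)
  refine ⟨G, hG, fun P hP d μ F hF0 hFd hmu T r σ hr hB => ?_⟩
  have h1 := Pool.Agent.Run7.h866.NU.balanced (hG' _ hP) hFd hF0 hmu hr σ hB.1 (near_of hB.2)
  have e1 : ∑ i ∈ T, (μ i : ℝ) = sumOn T μ := by
    unfold sumOn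
    push_cast
    rfl
  have e2 : Pool.Agent.Run7.h866.NU.spr T μ = spread T μ := by
    unfold Pool.Agent.Run7.h866.NU.spr spread
    rw [e1]
  rw [e1, e2] at h1
  refine ⟨h1, fun h2 => ?_⟩
  have hr0 : (0 : ℝ) < r := by exact_mod_cast hr
  have h4 : spread T μ ≤ (sumOn T μ : ℝ) / (2 * r) := by
    rw [le_div_iff₀ (by positivity)]
    linarith
  unfold selfInt
  linarith

end Pool.Agent.Results.MP_3c83d0_ag.BalancedMultiplicities
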