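import Mathlib
import Pool.Agent.Run7.h866.NU.Sym

set_option autoImplicit false

/-!
# `C ^ 2 ≥ g - 1` for prime divisors of controlled classes

A function `v` is near-uniform on a set `T` of points if `|T| ≥ 200` and `v i ∈ {m, m + 1}` on `T` for
some `m ≥ 1`, or `|T| ≥ 37` and `v` is close to a constant `m ≥ (|T| + 6) / 2` on `T`. A class `(d; w)` is
controlled if for such `T`, `v`
* `w = v` on `T` and `w ≤ 1` at the other points, or
* `w ≤ v` on `T`, `w ≤ 1` at the other points and `∑_T (v i + 1).choose 2 ≤ (d + 2).choose 2`, or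
* `w ≥ v` on `T` and `(d + 2).choose 2 ≤ ∑_T (v i + 1).choose 2`.

Let `C` be an irreducible curve of degree `d` on the plane blown up at very general points, with
multiplicities `w i` at the points. If `(d; w)` is controlled then `C ^ 2 ≥ g - 1` for its arithmetic
genus `g`, so `C ^ 2 ≥ - 1`, and `g = 0` if `C ^ 2 = - 1`.
-/

namespace Pool.Agent.Results.MP_3c83d0_ag.ControlledClasses

open MvPolynomial

/-- The homogeneous ideal of the point `(p 0 : p 1 : 1)`. -/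
noncomputable def ptIdeal (p : Fin 2 → ℂ) : Ideal (MvPolynomial (Fin 3) ℂ) :=
  Ideal.span ({X 0 - C (p 0) * X 2, X 1 - C (p 1) * X 2} : Set (MvPolynomial (Fin 3) ℂ))

/-- The curve `F = 0` has multiplicity `m` at the point `(p 0 : p 1 : 1)`. -/
def HasMult (F : MvPolynomial (Fin 3) ℂ) (p : Fin 2 → ℂ) (m : ℕ) : Prop :=
  F ∈ ptIdeal p ^ m ∧ F ∉ ptIdeal p ^ (m + 1)

/-- The self-intersection of the class `(d; w)`. -/
def selfInt {n : ℕ} (d : ℕ) (w : Fin n → ℕ) : ℚ := (d : ℚ) ^ 2 - ∑ i, (w i : ℚ) ^ 2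

/-- The intersection number of the class `(d; w)` with the canonical class. -/
def canon {n : ℕ} (d : ℕ) (w : Fin n → ℕ) : ℚ := -3 * (d : ℚ) + ∑ i, (w i : ℚ)

/-- The arithmetic genus `1 + (C ^ 2 + K C) / 2` of the class `(d; w)`. -/
def genus {n : ℕ} (d : ℕ) (w : Fin n → ℕ) : ℚ := 1 + (selfInt d w + canon d w) / 2

/-- The cost of a multiplicity `e ≤ m + 1`. -/
def cost (m e : ℕ) : ℕ := if e < m then 4 * (m - e) - 2 else if e = m then 0 else 1

/-- `0, 5, 2, 3` for `t ≡ 0, 1, 2, 3` modulo four. -/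
def spare (t : ℕ) : ℕ := if t % 4 = 1 then 5 else t % 4

/-- Near-uniform on the set `T` of points: entries `m`, `m + 1` at `200` or more points, or close to a
constant at `37` or more points. -/
def NearUniform {n : ℕ} (T : Finset (Fin n)) (v : Fin n → ℕ) : Prop :=
  (200 ≤ T.card ∧ ∃ m : ℕ, 1 ≤ m ∧ ∀ i ∈ T, v i = m ∨ v i = m + 1) ∨
  (37 ≤ T.card ∧ ∃ m : ℕ, T.card + 6 ≤ 2 * m ∧ (∀ i ∈ T, v i ≤ m + 1) ∧
    (((∑ i ∈ T, cost m (v i) : ℕ) : ℝ) + (spare T.card : ℝ) / 2 + 9 / 8 <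
        7 * Real.sqrt T.card / 6 ∨
      ((∑ i ∈ T, cost m (v i) : ℕ) : ℝ) + spare T.card + 2 * Real.sqrt T.card / 3 + 23 / 8 ≤
        (T.card : ℝ) / 4))

/-- The controlled classes. -/
def Controlled {n : ℕ} (d : ℕ) (w : Fin n → ℕ) : Prop :=
  ∃ (T : Finset (Fin n)) (v : Fin n → ℕ), NearUniform T v ∧
    (((∀ i, i ∉ T → w i ≤ 1) ∧ ((∀ i ∈ T, w i = v i) ∨
        ((∀ i ∈ T, w i ≤ v i) ∧ ∑ i ∈ T, (v i + 1).choose 2 ≤ (d + 2).choose 2))) ∨
      ((∀ i ∈ T, v i ≤ w i) ∧ (d + 2).choose 2 ≤ ∑ i ∈ T, (v i + 1).choose 2))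

theorem ctrl_of {n d : ℕ} {w : Fin n → ℕ} (h : Controlled d w) :
    Pool.Agent.Run7.h866.NU.Ctrl d w := by
  obtain ⟨T, v, hv, h⟩ := h
  refine Pool.Agent.Run7.h866.NU.ctrl_of_on (T := T) (v := v) ?_ h
  have ec : ∀ m e, cost m e = Pool.Agent.Run7.h866.NU.cst m e := fun _ _ => rfl
  have es : ∀ t, spare t = Pool.Agent.Run7.h866.NU.cc t := fun _ => rfl
  rcases hv with ⟨h1, m, hm, h2⟩ | ⟨h1, m, hm, h2, h3⟩
  · exact Or.inl ⟨h1, m, hm, h2⟩
  · simp only [ec, es] at h3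
    exact Or.inr ⟨h1, m, hm, h2, h3⟩

theorem result (n : ℕ) :
    ∃ G : ℕ → MvPolynomial (Fin n × Fin 2) ℂ, (∀ j, G j ≠ 0) ∧
      ∀ P : Fin n → Fin 2 → ℂ,
        (∀ j, MvPolynomial.eval (fun ij : Fin n × Fin 2 => P ij.1 ij.2) (G j) ≠ 0) →
        ∀ (d : ℕ) (w : Fin n → ℕ) (F : MvPolynomial (Fin 3) ℂ), Irreducible F →
          F.IsHomogeneous d → (∀ i, HasMult F (P i) (w i)) → Controlled d w →
            genus d w - 1 ≤ selfInt d w ∧
              (0 ≤ genus d w → -1 ≤ selfInt d w ∧ (selfInt d w = -1 → genus d w = 0)) := by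
  classical
  obtain ⟨G, hG, hG'⟩ := Pool.Agent.Run7.h866.NU.exists_familyC (Fin n × Fin 2)
  refine ⟨G, hG, fun P hP d w F hirr hFd hmu hc => ?_⟩
  have h1 := Pool.Agent.Run7.h866.NU.count_of_form
    (Pool.Agent.Run7.h866.NU.ctrl_exp (ctrl_of hc) (hG' _ hP)) hFd hirr.ne_zero
    (fun i => (hmu i).1)
  have h2 : ((∑ i, (w i + 1).choose 2 + 1 : ℕ) : ℚ) ≤ (((d + 2).choose 2 : ℕ) : ℚ) := by
    exact_mod_cast h1
  push_cast at h2
  have e1 : (((d + 2).choose 2 : ℕ) : ℚ) = ((d : ℚ) + 2) * (d + 1) / 2 := by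
    rw [Nat.cast_choose_two]
    push_cast
    ring
  have e2 : ∀ i, (((w i + 1).choose 2 : ℕ) : ℚ) = ((w i : ℚ) ^ 2 + w i) / 2 := by
    intro i
    rw [Nat.cast_choose_two]
    push_cast
    ring
  have e3 : ∑ i, (((w i + 1).choose 2 : ℕ) : ℚ) =
      (∑ i, (w i : ℚ) ^ 2 + ∑ i, (w i : ℚ)) / 2 := by
    rw [Finset.sum_congr rfl fun i _ => e2 i, ← Finset.sum_div, Finset.sum_add_distrib]
  rw [e1, e3] at h2
  have h3 : genus d w - 1 ≤ selfInt d w := by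
    unfold genus canon selfInt
    linarith
  refine ⟨h3, fun h0 => ⟨by linarith, fun h4 => ?_⟩⟩
  rw [h4] at h3
  linarith

end Pool.Agent.Results.MP_3c83d0_ag.ControlledClasses
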